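import Pool.Agent.Helper89.SP.Defs
import Pool.Agent.Helper96.Slab.Perm
import Pool.Agent.Helper76.Slab.AAH

/-!
Project SP (MP_66ebcc_gt), module SP-04: exclusion of a pair, the rest of a coordinate is not zero.
-/

set_option autoImplicit false

open MeasureTheory Set Real Slab

namespace Pool.Agent.Helper89.SP

namespace NoPair

theorem T_perm' {L L' : List ℝ} (h : L.Perm L') (t : ℝ) : T L t = T L' t := by
  unfold T
  rw [AL_perm h, h.length_eq]

theorem sq_perm {L L' : List ℝ} (h : L.Perm L') : sq L = sq L' :=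
  (h.map _).sum_eq

theorem qd_perm {L L' : List ℝ} (h : L.Perm L') : qd L = qd L' :=
  (h.map _).sum_eq

theorem sq_append (l l' : List ℝ) : sq (l ++ l') = sq l + sq l' := by
  unfold sq
  rw [List.map_append, List.sum_append]

theorem qd_append (l l' : List ℝ) : qd (l ++ l') = qd l + qd l' := by
  unfold qd
  rw [List.map_append, List.sum_append]

theorem AL_zeros (k : ℕ) (φ : ℝ → ℝ) : AL (List.replicate k 0) φ = fun s => 2 ^ k * φ s := by
  induction k with
  | zero =>
    funext s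
    simp [AL_nil]
  | succ k ih =>
    rw [List.replicate_succ, AL_cons, ih]
    funext s
    rw [AAHaux.A_zero]
    ring

theorem T_one_zeros (k : ℕ) {t : ℝ} (ht : 1 ≤ t) : T (1 :: List.replicate k 0) t = 0 := by
  unfold T
  rw [AL_cons, AL_zeros]
  have h1 : A 1 (fun s => 2 ^ k * H s) t = 2 ^ k * A 1 H t := by
    unfold A
    rw [intervalIntegral.integral_const_mul]
  rw [h1, AAHaux.A_H_pos one_pos, abs_of_nonneg (by linarith), abs_of_nonneg (by linarith)]
  norm_num

end NoPair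

open NoPair

theorem no_pair {n : ℕ} {t : ℝ} {L : List ℝ} (h : MaxL n t L) {p q c : ℝ} {l : List ℝ}
    (hp : L.Perm (l ++ [p, q])) (hqp : q < p) (hc0 : 0 ≤ c) (hc : 2 * c ^ 2 = p ^ 2 + q ^ 2)
    (hle : AL (l ++ [p, q]) H t ≤ AL (l ++ [c, c]) H t) : False := by
  have hlen : (l ++ [c, c]).length = n := by
    rw [← h.len, hp.length_eq]
    simp
  have hmem : ∀ x ∈ l ++ [p, q], 0 ≤ x := fun x hx => h.nonneg x (hp.mem_iff.2 hx)
  have hq : 0 ≤ q := hmem q (by simp)
  have hnn : ∀ x ∈ l ++ [c, c], 0 ≤ x := by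
    intro x hx
    rcases List.mem_append.1 hx with hx | hx
    · exact hmem x (List.mem_append.2 (Or.inl hx))
    · have : x = c := by simpa using hx
      rw [this]
      exact hc0
  have hsq : sq (l ++ [c, c]) = 1 := by
    have h1 := h.unit
    rw [sq_perm hp, sq_append] at h1
    rw [sq_append, ← h1]
    congr 1
    simp [sq]
    linarith
  have h1 : T L t ≤ T (l ++ [c, c]) t := by
    rw [T_perm' hp]
    unfold T
    have h2 : (l ++ [c, c]).length = (l ++ [p, q]).length := by simp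
    rw [h2]
    gcongr
  have h2 : T (l ++ [c, c]) t ≤ T L t := h.best _ hlen hnn hsq
  have h3 : qd L ≤ qd (l ++ [c, c]) := h.tie _ hlen hnn hsq (le_antisymm h2 h1)
  rw [qd_perm hp, qd_append, qd_append] at h3
  have h4 : qd [p, q] = p ^ 4 + q ^ 4 := by simp [qd]
  have h5 : qd [c, c] = 2 * c ^ 4 := by simp [qd]; ring
  rw [h4, h5] at h3
  have h6 : c ^ 2 = (p ^ 2 + q ^ 2) / 2 := by linarith
  have h7 : c ^ 4 = ((p ^ 2 + q ^ 2) / 2) ^ 2 := by rw [← h6]; ring
  rw [h7] at h3
  have h8 : (p ^ 2 - q ^ 2) ^ 2 ≤ 0 := by nlinarith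
  have h9 : p ^ 2 - q ^ 2 = 0 := by
    have := sq_nonneg (p ^ 2 - q ^ 2)
    exact pow_eq_zero_iff (two_ne_zero) |>.1 (le_antisymm h8 this)
  nlinarith

/-- the rest of a coordinate of a maximiser is not zero -/
theorem rest_pos {t : ℝ} (ht : 1 ≤ t) {L : List ℝ} (hL : ∀ x ∈ L, 0 ≤ x) (h1 : sq L = 1)
    (hT : 0 < T L t) {x : ℝ} {l : List ℝ} (hp : L.Perm (x :: l)) : ∃ y ∈ l, 0 < y := by
  by_contra hcon
  push Not at hcon
  have hmem : ∀ z ∈ x :: l, 0 ≤ z := fun z hz => hL z (hp.mem_iff.2 hz)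
  have hx : 0 ≤ x := hmem x (by simp)
  have hz : ∀ y ∈ l, y = 0 := fun y hy =>
    le_antisymm (hcon y hy) (hmem y (List.mem_cons_of_mem _ hy))
  have hl : l = List.replicate l.length 0 := List.eq_replicate_of_mem hz
  have h2 : sq (x :: l) = x ^ 2 := by
    rw [hl]
    simp [sq]
  have h3 : x ^ 2 = 1 := by
    rw [← h2, ← sq_perm hp, h1]
  have h4 : x = 1 := by nlinarith
  rw [T_perm' hp, h4, hl, T_one_zeros _ ht] at hT
  exact lt_irrefl _ hT

end Pool.Agent.Helper89.SP
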